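import Mathlib
import Pool.Agent.Y1.HZ.CritDefs

/-!
# Conjugates of Hodge classes on `A × Z`: definitions

Let `A` be an abelian variety with the inclusion `per` of its rational homology `W` in its tangent
space, and let `Z` be a smooth projective variety whose rational cohomology is `ℚ ^ v`; `per'`, `W'`
and `v'` are the same for `A'` and `Z'`. In the intended use `A' × Z'` is the conjugate of the complex
variety `A × Z` by an automorphism `σ` of the complex numbers, or `A × Z` and `A' × Z'` are obtained
from one variety over an algebraically closed field `k` by two embeddings of `k` in the complex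
numbers.
-/

set_option autoImplicit false

namespace Pool.Agent.H236.AH

open Module Pool.Agent.H204R3.CM Pool.Agent.TH131.GHC Pool.Agent.TH504.VY Pool.Agent.TH504.CB
  Pool.Agent.TH170.MF Pool.Agent.Y1.HZ

variable {W T W' T' : Type} [AddCommGroup W] [Module ℚ W] [AddCommGroup T] [Module ℂ T]
  [AddCommGroup W'] [Module ℚ W'] [AddCommGroup T'] [Module ℂ T']

/-- The comparison maps of the rational cohomology of `A × Z` and `A' × Z'` with one space `M`, and
of the rational cohomology of `Z` and `Z'` with one space `MZ` (in the intended use the de Rham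
cohomology, or the `ℓ`-adic cohomology with coefficients `ℚ_ℓ`, of the conjugate varieties). To each
product `f` of divisor classes on `A` belongs a Hodge class `f'` on `A'` (the product of the conjugate
divisor classes), such that the comparison of `f ⊗ x` and `f' ⊗ x'` is equal if the comparison
of `x` and `x'` is equal; and the comparison is compatible with the restriction to `0 × Z` and
`0 × Z'`. -/
structure Comparison (per : W →+ T) (per' : W' →+ T') (v v' : ℕ) (M MZ : Type) [AddCommGroup M]
    [Module ℚ M] [AddCommGroup MZ] [Module ℚ MZ] where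
  /-- the comparison map for `A × Z` -/
  c : HAZ W v →ₗ[ℚ] M
  /-- the comparison map for `A' × Z'` -/
  c' : HAZ W' v' →ₗ[ℚ] M
  /-- the comparison map for `Z` -/
  cZ : (Fin v → ℚ) →ₗ[ℚ] MZ
  /-- the comparison map for `Z'` -/
  cZ' : (Fin v' → ℚ) →ₗ[ℚ] MZ
  prod : ∀ k, ∀ f ∈ divisorSpan per k, ∃ f' : W' [⋀^Fin k]→ₗ[ℚ] ℚ, IsHodge per' f' ∧
    ∀ x x', cZ x = cZ' x' → c (cross f x) = c' (cross f' x')
  restrict : ∀ F F', c F = c' F' → cZ (F 0 ![]) = cZ' (F' 0 ![])

variable {per : W →+ T} {per' : W' →+ T'} {v v' : ℕ} {M MZ : Type} [AddCommGroup M]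
  [Module ℚ M] [AddCommGroup MZ] [Module ℚ MZ]

/-- The element `γ` of `MZ` is the image of a Hodge class on `Z`. -/
def HodgeVia (V : Coh v) (cZ : (Fin v → ℚ) →ₗ[ℚ] MZ) (γ : MZ) : Prop :=
  ∃ x, IsHodgeOn V x ∧ cZ x = γ

/-- The element `γ` of `M` is the image of a Hodge class on `A × Z`. -/
def HodgeViaProduct (per : W →+ T) (V : Coh v) (c : HAZ W v →ₗ[ℚ] M) (γ : M) : Prop :=
  ∃ F, IsHodgeOnProduct per V F ∧ c F = γ

/-- All images of Hodge classes on `Z` are images of Hodge classes on `Z'`. -/
def Transfer (K : Comparison per per' v v' M MZ) (V : Coh v) (V' : Coh v') : Prop :=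
  ∀ γ, HodgeVia V K.cZ γ → HodgeVia V' K.cZ' γ

/-- All images of Hodge classes on `A × Z` are images of Hodge classes on `A' × Z'`. -/
def TransferProduct (K : Comparison per per' v v' M MZ) (V : Coh v) (V' : Coh v') : Prop :=
  ∀ γ, HodgeViaProduct per V K.c γ → HodgeViaProduct per' V' K.c' γ

/-- All Betti numbers of the variety with cohomology `V` are less than twice the dimension of each
minimal nonzero Galois-stable space of odd functions on the complex embeddings of `E`. -/
def SmallBetti (V : Coh v) (E : Type) [Field E] : Prop :=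
  ∀ S ∈ minimalSpaces E, ∀ k, betti V k < 2 * finrank ℚ S

end Pool.Agent.H236.AH
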