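import Mathlib
import Pool.Agent.H236.AH.Defs
import Pool.Agent.Y1.HZ.Main
import Pool.Agent.Y1.HZ.Betti
import Pool.Agent.W516.DRHodge

/-!
# Conjugates of Hodge classes on `A × Z`
-/

set_option autoImplicit false

namespace Pool.Agent.H236.AH

open Matrix NumberField Module Pool.Agent.H204R3.CM Pool.Agent.H977R3.CM Pool.Agent.TH131.GHC
  Pool.Agent.TH504.VY Pool.Agent.TH504.CB Pool.Agent.TH170.CM Pool.Agent.TH170.MF
  Pool.Agent.Y1.HZ

section

variable {W T : Type} [AddCommGroup W] [Module ℚ W] [AddCommGroup T] [Module ℂ T]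
  {per : W →+ T} {v : ℕ} {V : Coh v}

theorem cv_add (x y : Fin v → ℚ) : cv (x + y) = cv x + cv y := by
  funext b
  simp only [cv, Pi.add_apply, Rat.cast_add]

theorem cv_smul (r : ℚ) (x : Fin v → ℚ) : cv (r • x) = (r : ℂ) • cv x := by
  funext b
  simp only [cv, Pi.smul_apply, smul_eq_mul, Rat.cast_mul]

theorem cv_zero : cv (0 : Fin v → ℚ) = 0 := by
  funext b
  simp only [cv, Pi.zero_apply, Rat.cast_zero]

theorem hodge_zero : IsHodgeOnProduct per V (0 : HAZ W v) := by
  refine ⟨0, fun k w => ?_, fun k u => ?_⟩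
  · rw [Pi.zero_apply, Pi.zero_apply, AlternatingMap.zero_apply, AlternatingMap.zero_apply,
      cv_zero]
  · simp only [Pi.zero_apply, AlternatingMap.zero_apply, Finset.sum_const_zero, smul_zero,
      Matrix.mulVec_zero, add_zero]

theorem hodge_add {F G : HAZ W v} (hF : IsHodgeOnProduct per V F)
    (hG : IsHodgeOnProduct per V G) : IsHodgeOnProduct per V (F + G) := by
  obtain ⟨Φ, h1, h2⟩ := hF
  obtain ⟨Ψ, h3, h4⟩ := hG
  refine ⟨Φ + Ψ, fun k w => ?_, fun k u => ?_⟩
  · rw [Pi.add_apply, Pi.add_apply, AlternatingMap.add_apply, AlternatingMap.add_apply, h1, h3,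
      cv_add]
  · have h5 := h2 k u
    have h6 := h4 k u
    simp only [Pi.add_apply, AlternatingMap.add_apply, Finset.sum_add_distrib, smul_add,
      Matrix.mulVec_add] at h5 h6 ⊢
    rw [← h5, ← h6]
    abel

theorem hodge_smul (r : ℚ) {F : HAZ W v} (hF : IsHodgeOnProduct per V F) :
    IsHodgeOnProduct per V (r • F) := by
  obtain ⟨Φ, h1, h2⟩ := hF
  refine ⟨fun k => (LinearMap.lsmul ℝ (Fin v → ℂ) (r : ℝ)).compAlternatingMap (Φ k),
    fun k w => ?_, fun k u => ?_⟩
  · change (r : ℝ) • Φ k _ = cv (r • F k w)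
    rw [h1, cv_smul]
    funext b
    simp [cv]
  · have h5 := h2 k u
    change (-Complex.I) • ∑ l, (r : ℝ) • Φ k (Function.update u l (Complex.I • u l)) +
      V.z *ᵥ ((r : ℝ) • Φ k u) = _
    rw [← Finset.smul_sum, Matrix.mulVec_smul, smul_comm, ← smul_add, h5, Int.cast_zero, zero_smul,
      zero_smul, smul_zero]

/-- The exterior product of a Hodge class on `A` and a Hodge class on `Z` is a Hodge class. -/
theorem hodge_cross {k : ℕ} {f : W [⋀^Fin k]→ₗ[ℚ] ℚ} (hf : IsHodge per f) {x : Fin v → ℚ}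
    (hx : IsHodgeOn V x) : IsHodgeOnProduct per V (cross f x) := by
  obtain ⟨ψ, h1, h2⟩ := hf
  -- the alternating form
  let ψ' : T [⋀^Fin k]→ₗ[ℝ] ℝ := ((k.factorial : ℝ)⁻¹) • MultilinearMap.alternatization ψ
  have h3 : ∀ w : Fin k → W, ψ' (fun l => per (w l)) = (f w : ℝ) := by
    intro w
    change (k.factorial : ℝ)⁻¹ • MultilinearMap.alternatization ψ (fun l => per (w l)) = _
    rw [MultilinearMap.alternatization_apply]
    have h4 : ∀ σ : Equiv.Perm (Fin k),
        Equiv.Perm.sign σ • MultilinearMap.domDomCongr σ ψ (fun l => per (w l)) = (f w : ℝ) := by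
      intro σ
      rw [MultilinearMap.domDomCongr_apply]
      have h5 := h1 (fun l => w (σ l))
      rw [h5]
      have h6 := f.map_perm w σ
      change f (fun l => w (σ l)) = _ at h6
      rw [h6, Units.smul_def, Units.smul_def, zsmul_eq_mul, zsmul_eq_mul, Rat.cast_mul,
        Rat.cast_intCast, ← mul_assoc, ← Int.cast_mul, Int.units_coe_mul_self, Int.cast_one, one_mul]
    rw [Finset.sum_congr rfl fun σ _ => h4 σ, Finset.sum_const, Finset.card_univ,
      Fintype.card_perm, Fintype.card_fin, nsmul_eq_mul, smul_eq_mul, ← mul_assoc,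
      inv_mul_cancel₀ (Nat.cast_ne_zero.2 (Nat.factorial_ne_zero k)), one_mul]
  have h4 : ∀ u : Fin k → T, ∑ l, ψ' (Function.update u l (Complex.I • u l)) = 0 := by
    refine (Pool.Agent.W516.DR.invariant_iff ψ'.toMultilinearMap).1 fun z hz u => ?_
    change (k.factorial : ℝ)⁻¹ • MultilinearMap.alternatization ψ (fun l => z • u l) =
      (k.factorial : ℝ)⁻¹ • MultilinearMap.alternatization ψ u
    rw [MultilinearMap.alternatization_apply, MultilinearMap.alternatization_apply]
    congr 1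
    refine Finset.sum_congr rfl fun σ _ => ?_
    rw [MultilinearMap.domDomCongr_apply, MultilinearMap.domDomCongr_apply, h2 z hz]
  refine ⟨Pi.single k ((LinearMap.toSpanSingleton ℝ (Fin v → ℂ) (cv x)).compAlternatingMap ψ'),
    ?_, ?_⟩
  · intro l w
    by_cases hl : l = k
    · subst hl
      rw [cross, Pi.single_eq_same, Pi.single_eq_same]
      change ψ' (fun l => per (w l)) • cv x = cv (f w • x)
      rw [h3, cv_smul]
      funext b
      simp
    · rw [cross, Pi.single_eq_of_ne hl, Pi.single_eq_of_ne hl, AlternatingMap.zero_apply,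
        AlternatingMap.zero_apply, cv_zero]
  · intro l u
    by_cases hl : l = k
    · subst hl
      rw [Pi.single_eq_same]
      change (-Complex.I) • ∑ l, ψ' (Function.update u l (Complex.I • u l)) • cv x +
        V.z *ᵥ (ψ' u • cv x) = ((0 : ℤ) : ℂ) • (ψ' u • cv x)
      have h5 : V.z *ᵥ cv x = 0 := hx
      rw [← Finset.sum_smul, h4, zero_smul, smul_zero, zero_add, Matrix.mulVec_smul, h5, smul_zero,
        Int.cast_zero, zero_smul]
    · rw [Pi.single_eq_of_ne hl]
      simp only [AlternatingMap.zero_apply, Finset.sum_const_zero, smul_zero, Matrix.mulVec_zero,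
        add_zero]

/-- The restriction of a Hodge class on `A × Z` to `0 × Z` is a Hodge class. -/
theorem hodge_restrict {F : HAZ W v} (hF : IsHodgeOnProduct per V F) : IsHodgeOn V (F 0 ![]) := by
  obtain ⟨Φ, h1, h2⟩ := hF
  have h3 := h2 0 (fun l => per ((![] : Fin 0 → W) l))
  rw [h1 0 ![], Finset.univ_eq_empty, Finset.sum_empty, smul_zero, zero_add, Int.cast_zero,
    zero_smul] at h3
  exact h3

theorem hodge_one (per : W →+ T) : IsHodge per (AlternatingMap.constOfIsEmpty ℚ W (Fin 0) (1 : ℚ)) := by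
  refine ⟨MultilinearMap.constOfIsEmpty ℝ (fun _ : Fin 0 => T) 1, fun w => ?_, fun z hz u => rfl⟩
  change (1 : ℝ) = ((1 : ℚ) : ℝ)
  rw [Rat.cast_one]

end

/-- **Conjugates of Hodge classes on `A × Z`.** -/
theorem main {ι : Type} [Fintype ι] {E : ι → Type} [∀ i, Field (E i)] [∀ i, NumberField (E i)]
    [∀ i, IsCMField (E i)] {Φ : ∀ i, Set (E i →+* ℂ)} (hΦ : ∀ i, IsCMType (Φ i))
    (hind : PairwiseIndep E) (hnd : ∀ i, ¬ Degenerate (Φ i))
    {J : Type} [Fintype J] (t : J → ι) {v : ℕ} {V : Coh v}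
    (hV : ∀ i, SmallBetti V (E i) ∨ UnrelatedHodge V (E i))
    {W' T' : Type} [AddCommGroup W'] [Module ℚ W'] [AddCommGroup T'] [Module ℂ T']
    {per' : W' →+ T'} {v' : ℕ} (V' : Coh v') {M MZ : Type} [AddCommGroup M]
    [Module ℚ M] [AddCommGroup MZ] [Module ℚ MZ] (K : Comparison (per Φ t) per' v v' M MZ) :
    TransferProduct K V V' ↔ Transfer K V V' := by
  have hun : ∀ i, UnrelatedHodge V (E i) := fun i =>
    (hV i).elim (fun h => unrelated_of_betti V h) id
  have hT := hodgeTimes_of_not_degenerate hΦ hind hnd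
  constructor
  · rintro h γ ⟨x, hx, rfl⟩
    obtain ⟨F', hF', hFe⟩ := h (K.c (cross (AlternatingMap.constOfIsEmpty ℚ _ (Fin 0) (1 : ℚ)) x))
      ⟨_, hodge_cross (hodge_one _) hx, rfl⟩
    refine ⟨F' 0 ![], hodge_restrict hF', ?_⟩
    rw [← K.restrict _ _ hFe.symm]
    congr 1
    rw [cross, Pi.single_eq_same]
    change (1 : ℚ) • x = x
    rw [one_smul]
  · rintro h γ ⟨F, hF, rfl⟩
    have h1 : F ∈ crossSpan (per Φ t) V := hT J t v V hun F hF
    clear hF
    induction h1 using Submodule.span_induction with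
    | mem F hF =>
      obtain ⟨k, f, x, hf, hx, rfl⟩ := hF
      obtain ⟨f', hf', hK⟩ := K.prod k f hf
      obtain ⟨x', hx', hxe⟩ := h (K.cZ x) ⟨x, hx, rfl⟩
      exact ⟨cross f' x', hodge_cross hf' hx', (hK x x' hxe.symm).symm⟩
    | zero => exact ⟨0, hodge_zero, by rw [map_zero, map_zero]⟩
    | add F G _ _ hF hG =>
      obtain ⟨F', hF', hFe⟩ := hF
      obtain ⟨G', hG', hGe⟩ := hG
      exact ⟨F' + G', hodge_add hF' hG', by rw [map_add, map_add, hFe, hGe]⟩
    | smul r F _ hF =>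
      obtain ⟨F', hF', hFe⟩ := hF
      exact ⟨r • F', hodge_smul r hF', by rw [map_smul, map_smul, hFe]⟩

end Pool.Agent.H236.AH
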